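import Mathlib

set_option autoImplicit false

/-! Definitions of the problem, in its own words: Leonard pairs and triples, the equitable
presentation of `U_q(sl_2)`, the antiautomorphism `†` and the collected hypotheses. -/

namespace Pool.Agent.Results.MP_a7ee28_al.DimThreeDisproof

open Module

section Defs

variable {K V : Type} [Field K] [AddCommGroup V] [Module K V]

/-- A square matrix is irreducible tridiagonal: zero off the three central diagonals, nonzero
entries on the subdiagonal and on the superdiagonal. -/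
def IsIrredTridiag {n : ℕ} (M : Matrix (Fin n) (Fin n) K) : Prop :=
  ∀ i j : Fin n,
    ((i : ℕ) + 1 < j ∨ (j : ℕ) + 1 < i → M i j = 0) ∧
    ((i : ℕ) + 1 = j ∨ (j : ℕ) + 1 = i → M i j ≠ 0)

/-- `A, As` is a Leonard pair on `V` (`dim V = d + 1`). -/
def IsLeonardPair (d : ℕ) (A As : End K V) : Prop :=
  (∃ b : Basis (Fin (d + 1)) K V,
    IsIrredTridiag (LinearMap.toMatrix b b A) ∧ (LinearMap.toMatrix b b As).IsDiag) ∧
  (∃ b : Basis (Fin (d + 1)) K V,
    IsIrredTridiag (LinearMap.toMatrix b b As) ∧ (LinearMap.toMatrix b b A).IsDiag)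

/-- There is a basis of `V` (`dim V = d + 1`) in which `A` is diagonal and `B` and `C` are
irreducible tridiagonal. -/
def HasLeonardBasis (d : ℕ) (A B C : End K V) : Prop :=
  ∃ b : Basis (Fin (d + 1)) K V, (LinearMap.toMatrix b b A).IsDiag ∧
    IsIrredTridiag (LinearMap.toMatrix b b B) ∧ IsIrredTridiag (LinearMap.toMatrix b b C)

/-- `A, As, Ae` is a Leonard triple on `V` (`dim V = d + 1`). -/
def IsLeonardTriple (d : ℕ) (A As Ae : End K V) : Prop :=
  HasLeonardBasis d A As Ae ∧ HasLeonardBasis d As A Ae ∧ HasLeonardBasis d Ae A As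

/-- `q ^ 2 + q ^ (-2) + 1` is the common value of the ratios
`(θ (i-2) - θ (i+1)) / (θ (i-1) - θ i)`, `2 ≤ i ≤ d - 1`, where `θ 0, ..., θ d` are the diagonal
entries of `A` in a basis in which `A` is diagonal and `As` is irreducible tridiagonal. -/
def RatioCondition (d : ℕ) (q : K) (A As : End K V) : Prop :=
  ∀ (b : Basis (Fin (d + 1)) K V) (θ : ℕ → K),
    (LinearMap.toMatrix b b A).IsDiag → IsIrredTridiag (LinearMap.toMatrix b b As) →
      (∀ i : Fin (d + 1), LinearMap.toMatrix b b A i i = θ i) →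
        ∀ i : ℕ, 2 ≤ i → i + 1 ≤ d →
          θ (i - 2) - θ (i + 1) = (q ^ 2 + (q ^ 2)⁻¹ + 1) * (θ (i - 1) - θ i)

/-- `X, Xinv, Y, Z` satisfy the defining relations of the equitable presentation of
`U_q(sl_2)`. -/
structure IsEquitable (q : K) (X Xinv Y Z : End K V) : Prop where
  mul_inv : X * Xinv = 1
  inv_mul : Xinv * X = 1
  xy : (q - q⁻¹)⁻¹ • (q • (X * Y) - q⁻¹ • (Y * X)) = 1
  yz : (q - q⁻¹)⁻¹ • (q • (Y * Z) - q⁻¹ • (Z * Y)) = 1
  zx : (q - q⁻¹)⁻¹ • (q • (Z * X) - q⁻¹ • (X * Z)) = 1

/-- The module defined by `X, Xinv, Y, Z` is irreducible. -/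
def IsIrreducibleAction (X Xinv Y Z : End K V) : Prop :=
  Nontrivial V ∧ ∀ W : Submodule K V,
    (∀ w ∈ W, X w ∈ W ∧ Xinv w ∈ W ∧ Y w ∈ W ∧ Z w ∈ W) → W = ⊥ ∨ W = ⊤

/-- `M` is a linear combination of `I, P, Q, P Q`. -/
def IsComb (P Q M : End K V) : Prop :=
  ∃ a b c e : K, M = a • 1 + b • P + c • Q + e • (P * Q)

/-- `τ` is an antiautomorphism of `End(V)` (a bijective linear map reversing products) that fixes
`A` and `As`; for a Leonard pair this is the map `†`. -/
structure IsDagger (A As : End K V) (τ : End K V → End K V) : Prop where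
  map_add : ∀ M N : End K V, τ (M + N) = τ M + τ N
  map_smul : ∀ (c : K) (M : End K V), τ (c • M) = c • τ M
  map_mul : ∀ M N : End K V, τ (M * N) = τ N * τ M
  bijective : Function.Bijective τ
  map_A : τ A = A
  map_As : τ As = As

/-- All the hypotheses of the problem, for a field `K`, a vector space `V` of dimension `d + 1`,
a scalar `q`, linear maps `A, As, Ae` and a module structure `X, Xinv, Y, Z`. -/
structure Setup (d : ℕ) (q : K) (A As Ae X Xinv Y Z : End K V) : Prop where
  dim : finrank K V = d + 1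
  q_ne_zero : q ≠ 0
  q_not_root : ∀ n : ℕ, 0 < n → q ^ n ≠ 1
  pair : IsLeonardPair d A As
  ratio : RatioCondition d q A As
  equitable : IsEquitable q X Xinv Y Z
  irreducible : IsIrreducibleAction X Xinv Y Z
  A_mem : IsComb X Y A
  As_mem : IsComb Y Z As
  triple : IsLeonardTriple d A As Ae

end Defs

end Pool.Agent.Results.MP_a7ee28_al.DimThreeDisproof
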