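import Pool.Agent.Work.MP_a7ee28_al.Defs

set_option autoImplicit false

namespace Pool.Agent.Results.MP_a7ee28_al.DimThreeDisproof

open Module

/-! ### The example -/

/-- change of basis -/
lemma exists_basis (P Q : Matrix (Fin 3) (Fin 3) ℚ) (h : P * Q = 1) (h' : Q * P = 1) :
    ∃ b : Basis (Fin 3) ℚ (Fin 3 → ℚ), ∀ N : Matrix (Fin 3) (Fin 3) ℚ,
      LinearMap.toMatrix b b (Matrix.toLin' N) = Q * N * P := by
  let e : (Fin 3 → ℚ) ≃ₗ[ℚ] (Fin 3 → ℚ) :=
    LinearEquiv.ofLinearMap (Matrix.toLin' P) (Matrix.toLin' Q)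
      (by rw [← Matrix.toLin'_mul, h, Matrix.toLin'_one])
      (by rw [← Matrix.toLin'_mul, h', Matrix.toLin'_one])
  refine ⟨(Pi.basisFun ℚ (Fin 3)).map e, fun N => ?_⟩
  ext i j
  rw [LinearMap.toMatrix_apply]
  simp only [Basis.map_apply, Basis.map_repr, LinearEquiv.trans_apply, Pi.basisFun_apply,
    Pi.basisFun_repr]
  show (Matrix.toLin' Q (Matrix.toLin' N (Matrix.toLin' P (Pi.single j 1)))) i = _
  simp only [Matrix.toLin'_apply]
  rw [Matrix.mulVec_mulVec, Matrix.mulVec_mulVec, Matrix.mulVec_single_one]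
  rfl

/-- The matrix of `X` (for `q = 2`). -/
def mX : Matrix (Fin 3) (Fin 3) ℚ := !![1/4, 1, 0; 0, 1, 1; 0, 0, 4]
/-- The matrix of the inverse of `X`. -/
def mXi : Matrix (Fin 3) (Fin 3) ℚ := !![4, -4, 1; 0, 1, -1/4; 0, 0, 1/4]
/-- The matrix of `Y`. -/
def mY : Matrix (Fin 3) (Fin 3) ℚ := !![4, 0, 0; 0, 1, 0; 0, 0, 1/4]
/-- The matrix of `Z`. -/
def mZ : Matrix (Fin 3) (Fin 3) ℚ := !![1/4, 0, 0; -45/16, 1, 0; 0, -45/4, 4]
/-- The matrix of `A = X - Y + 2 (X Y - 1)`. -/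
def mA : Matrix (Fin 3) (Fin 3) ℚ := !![-15/4, 3, 0; 0, 0, 3/2; 0, 0, 15/4]
/-- The matrix of `As = -Y + Z + 2 (Y Z - 1)`. -/
def mB : Matrix (Fin 3) (Fin 3) ℚ := !![-15/4, 0, 0; -135/16, 0, 0; 0, -135/8, 15/4]
/-- The matrix of `Ae = 5 A + 8 As`. -/
def mC : Matrix (Fin 3) (Fin 3) ℚ := !![-195/4, 15, 0; -135/2, 0, 15/2; 0, -135, 195/4]

lemma tri_of (a b c a' b' c' d' : ℚ) (h1 : b ≠ 0) (h2 : a' ≠ 0) (h3 : c' ≠ 0) (h4 : d' ≠ 0) :
    IsIrredTridiag (!![a, b, 0; a', b', c'; 0, d', c] : Matrix (Fin 3) (Fin 3) ℚ) := by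
  intro i j
  fin_cases i <;> fin_cases j <;> simp_all

lemma diag_of (a b c : ℚ) :
    (!![a, 0, 0; 0, b, 0; 0, 0, c] : Matrix (Fin 3) (Fin 3) ℚ).IsDiag := by
  intro i j hij
  fin_cases i <;> fin_cases j <;> simp_all

lemma mat_eq (M N : Matrix (Fin 3) (Fin 3) ℚ)
    (h : ∀ i j, M i j = N i j) : M = N := Matrix.ext h

/-- eigenbasis of `A` -/
lemma basisA : ∃ b : Basis (Fin 3) ℚ (Fin 3 → ℚ),
    (LinearMap.toMatrix b b (Matrix.toLin' mA)).IsDiag ∧
    IsIrredTridiag (LinearMap.toMatrix b b (Matrix.toLin' mB)) ∧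
    IsIrredTridiag (LinearMap.toMatrix b b (Matrix.toLin' mC)) := by
  obtain ⟨b, hb⟩ := exists_basis !![1, 4, 4; 0, 5, 10; 0, 0, 25]
    !![1, -4/5, 4/25; 0, 1/5, -2/25; 0, 0, 1/25]
    (by decide +kernel)
    (by decide +kernel)
  refine ⟨b, ?_, ?_, ?_⟩
  · rw [hb, show (!![1, -4/5, 4/25; 0, 1/5, -2/25; 0, 0, 1/25] * mA *
      !![1, 4, 4; 0, 5, 10; 0, 0, 25] : Matrix (Fin 3) (Fin 3) ℚ) =
      !![-15/4, 0, 0; 0, 0, 0; 0, 0, 15/4] by decide +kernel]
    exact diag_of _ _ _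
  · rw [hb, show (!![1, -4/5, 4/25; 0, 1/5, -2/25; 0, 0, 1/25] * mB *
      !![1, 4, 4; 0, 5, 10; 0, 0, 25] : Matrix (Fin 3) (Fin 3) ℚ) =
      !![3, -3/2, 0; -27/16, 0, -3/4; 0, -27/8, -3] by decide +kernel]
    exact tri_of _ _ _ _ _ _ _ (by norm_num) (by norm_num) (by norm_num) (by norm_num)
  · rw [hb, show (!![1, -4/5, 4/25; 0, 1/5, -2/25; 0, 0, 1/25] * mC *
      !![1, 4, 4; 0, 5, 10; 0, 0, 25] : Matrix (Fin 3) (Fin 3) ℚ) =
      !![21/4, -12, 0; -27/2, 0, -6; 0, -27, -21/4] by decide +kernel]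
    exact tri_of _ _ _ _ _ _ _ (by norm_num) (by norm_num) (by norm_num) (by norm_num)

/-- eigenbasis of `As` -/
lemma basisB : ∃ b : Basis (Fin 3) ℚ (Fin 3 → ℚ),
    (LinearMap.toMatrix b b (Matrix.toLin' mB)).IsDiag ∧
    IsIrredTridiag (LinearMap.toMatrix b b (Matrix.toLin' mA)) ∧
    IsIrredTridiag (LinearMap.toMatrix b b (Matrix.toLin' mC)) := by
  obtain ⟨b, hb⟩ := exists_basis !![16, 0, 0; 36, 2, 0; 81, 9, 1]
    !![1/16, 0, 0; -9/8, 1/2, 0; 81/16, -9/2, 1]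
    (by decide +kernel)
    (by decide +kernel)
  refine ⟨b, ?_, ?_, ?_⟩
  · rw [hb, show (!![1/16, 0, 0; -9/8, 1/2, 0; 81/16, -9/2, 1] * mB *
      !![16, 0, 0; 36, 2, 0; 81, 9, 1] : Matrix (Fin 3) (Fin 3) ℚ) =
      !![-15/4, 0, 0; 0, 0, 0; 0, 0, 15/4] by decide +kernel]
    exact diag_of _ _ _
  · rw [hb, show (!![1/16, 0, 0; -9/8, 1/2, 0; 81/16, -9/2, 1] * mA *
      !![16, 0, 0; 36, 2, 0; 81, 9, 1] : Matrix (Fin 3) (Fin 3) ℚ) =
      !![3, 3/8, 0; 27/4, 0, 3/4; 0, 27/8, -3] by decide +kernel]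
    exact tri_of _ _ _ _ _ _ _ (by norm_num) (by norm_num) (by norm_num) (by norm_num)
  · rw [hb, show (!![1/16, 0, 0; -9/8, 1/2, 0; 81/16, -9/2, 1] * mC *
      !![16, 0, 0; 36, 2, 0; 81, 9, 1] : Matrix (Fin 3) (Fin 3) ℚ) =
      !![-15, 15/8, 0; 135/4, 0, 15/4; 0, 135/8, 15] by decide +kernel]
    exact tri_of _ _ _ _ _ _ _ (by norm_num) (by norm_num) (by norm_num) (by norm_num)

/-- eigenbasis of `Ae` -/
lemma basisC : ∃ b : Basis (Fin 3) ℚ (Fin 3 → ℚ),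
    (LinearMap.toMatrix b b (Matrix.toLin' mC)).IsDiag ∧
    IsIrredTridiag (LinearMap.toMatrix b b (Matrix.toLin' mA)) ∧
    IsIrredTridiag (LinearMap.toMatrix b b (Matrix.toLin' mB)) := by
  obtain ⟨b, hb⟩ := exists_basis !![1, 4, 4; 2, 13, 18; 4, 36, 81]
    !![81/25, -36/25, 4/25; -18/25, 13/25, -2/25; 4/25, -4/25, 1/25]
    (by decide +kernel)
    (by decide +kernel)
  refine ⟨b, ?_, ?_, ?_⟩
  · rw [hb, show (!![81/25, -36/25, 4/25; -18/25, 13/25, -2/25; 4/25, -4/25, 1/25] * mC *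
      !![1, 4, 4; 2, 13, 18; 4, 36, 81] : Matrix (Fin 3) (Fin 3) ℚ) =
      !![-75/4, 0, 0; 0, 0, 0; 0, 0, 75/4] by decide +kernel]
    exact diag_of _ _ _
  · rw [hb, show (!![81/25, -36/25, 4/25; -18/25, 13/25, -2/25; 4/25, -4/25, 1/25] * mA *
      !![1, 4, 4; 2, 13, 18; 4, 36, 81] : Matrix (Fin 3) (Fin 3) ℚ) =
      !![21/20, 108/5, 0; 3/10, 0, 54/5; 0, 3/5, -21/20] by decide +kernel]
    exact tri_of _ _ _ _ _ _ _ (by norm_num) (by norm_num) (by norm_num) (by norm_num)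
  · rw [hb, show (!![81/25, -36/25, 4/25; -18/25, 13/25, -2/25; 4/25, -4/25, 1/25] * mB *
      !![1, 4, 4; 2, 13, 18; 4, 36, 81] : Matrix (Fin 3) (Fin 3) ℚ) =
      !![-3, -27/2, 0; -3/16, 0, -27/4; 0, -3/8, 3] by decide +kernel]
    exact tri_of _ _ _ _ _ _ _ (by norm_num) (by norm_num) (by norm_num) (by norm_num)

lemma mA_eq : mA = mX - mY + (2 : ℚ) • (mX * mY) - (2 : ℚ) • 1 := by decide +kernel

lemma mB_eq : mB = mZ - mY + (2 : ℚ) • (mY * mZ) - (2 : ℚ) • 1 := by decide +kernel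

lemma mC_eq : mC = (5 : ℚ) • mA + (8 : ℚ) • mB := by
  decide +kernel

lemma rel_xy : ((2 : ℚ) - 2⁻¹)⁻¹ • ((2 : ℚ) • (mX * mY) - (2 : ℚ)⁻¹ • (mY * mX)) = 1 := by decide +kernel

lemma rel_yz : ((2 : ℚ) - 2⁻¹)⁻¹ • ((2 : ℚ) • (mY * mZ) - (2 : ℚ)⁻¹ • (mZ * mY)) = 1 := by decide +kernel

lemma rel_zx : ((2 : ℚ) - 2⁻¹)⁻¹ • ((2 : ℚ) • (mZ * mX) - (2 : ℚ)⁻¹ • (mX * mZ)) = 1 := by decide +kernel

lemma rel_inv : mX * mXi = 1 := by decide +kernel

lemma rel_inv' : mXi * mX = 1 := by decide +kernel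

/-- the algebra isomorphism between matrices and endomorphisms -/
noncomputable def φ : Matrix (Fin 3) (Fin 3) ℚ ≃ₐ[ℚ] End ℚ (Fin 3 → ℚ) := Matrix.toLinAlgEquiv'

lemma φ_apply (M : Matrix (Fin 3) (Fin 3) ℚ) : φ M = Matrix.toLin' M := rfl

lemma equitable : IsEquitable (2 : ℚ) (φ mX) (φ mXi) (φ mY) (φ mZ) where
  mul_inv := by rw [← map_mul, rel_inv, map_one]
  inv_mul := by rw [← map_mul, rel_inv', map_one]
  xy := by
    rw [← map_mul, ← map_mul, ← map_smul, ← map_smul, ← map_sub, ← map_smul, rel_xy, map_one]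
  yz := by
    rw [← map_mul, ← map_mul, ← map_smul, ← map_smul, ← map_sub, ← map_smul, rel_yz, map_one]
  zx := by
    rw [← map_mul, ← map_mul, ← map_smul, ← map_smul, ← map_sub, ← map_smul, rel_zx, map_one]

lemma X_apply (v : Fin 3 → ℚ) : φ mX v = ![v 0 / 4 + v 1, v 1 + v 2, 4 * v 2] := by
  rw [φ_apply, Matrix.toLin'_apply]
  ext i
  fin_cases i <;> simp [mX, Matrix.mulVec, dotProduct, Fin.sum_univ_succ]; ring

lemma Y_apply (v : Fin 3 → ℚ) : φ mY v = ![4 * v 0, v 1, v 2 / 4] := by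
  rw [φ_apply, Matrix.toLin'_apply]
  ext i
  fin_cases i <;> simp [mY, Matrix.mulVec, dotProduct, Fin.sum_univ_succ]; ring

lemma Z_apply (v : Fin 3 → ℚ) :
    φ mZ v = ![v 0 / 4, -45 / 16 * v 0 + v 1, -45 / 4 * v 1 + 4 * v 2] := by
  rw [φ_apply, Matrix.toLin'_apply]
  ext i
  fin_cases i <;> simp [mZ, Matrix.mulVec, dotProduct, Fin.sum_univ_succ]; ring

lemma irreducible : IsIrreducibleAction (φ mX) (φ mXi) (φ mY) (φ mZ) := by
  refine ⟨inferInstance, fun W hW => ?_⟩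
  by_cases hbot : W = ⊥
  · exact Or.inl hbot
  right
  have hX : ∀ w ∈ W, (![w 0 / 4 + w 1, w 1 + w 2, 4 * w 2] : Fin 3 → ℚ) ∈ W := fun w hw => by
    rw [← X_apply]; exact (hW w hw).1
  have hY : ∀ w ∈ W, (![4 * w 0, w 1, w 2 / 4] : Fin 3 → ℚ) ∈ W := fun w hw => by
    rw [← Y_apply]; exact (hW w hw).2.2.1
  have hZ : ∀ w ∈ W,
      (![w 0 / 4, -45 / 16 * w 0 + w 1, -45 / 4 * w 1 + 4 * w 2] : Fin 3 → ℚ) ∈ W :=
    fun w hw => by rw [← Z_apply]; exact (hW w hw).2.2.2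
  have hvec : ∀ w : Fin 3 → ℚ, w = ![w 0, w 1, w 2] := by
    intro w
    ext i
    fin_cases i <;> rfl
  have hY' : ∀ a b c : ℚ, (![a, b, c] : Fin 3 → ℚ) ∈ W → (![4 * a, b, c / 4] : Fin 3 → ℚ) ∈ W :=
    fun a b c h => by simpa using hY _ h
  -- the three projections
  have p0 : ∀ w ∈ W, w 0 ≠ 0 → (![1, 0, 0] : Fin 3 → ℚ) ∈ W := by
    intro w hw h0
    rw [hvec w] at hw
    have h1 := hY' _ _ _ hw
    have h2 := hY' _ _ _ h1
    have h3 := W.smul_mem (4 / (45 * w 0)) (W.add_mem (W.sub_mem h2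
      (W.smul_mem (5 / 4) h1)) (W.smul_mem (1 / 4) hw))
    convert h3 using 1
    ext i
    fin_cases i
    · simp
      field_simp
      ring
    · simp
      right
      ring
    · simp
      right
      ring
  have p1 : ∀ w ∈ W, w 1 ≠ 0 → (![0, 1, 0] : Fin 3 → ℚ) ∈ W := by
    intro w hw h0
    rw [hvec w] at hw
    have h1 := hY' _ _ _ hw
    have h2 := hY' _ _ _ h1
    have h3 := W.smul_mem (-4 / (9 * w 1)) (W.add_mem (W.sub_mem h2
      (W.smul_mem (17 / 4) h1)) hw)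
    convert h3 using 1
    ext i
    fin_cases i
    · simp
      right
      ring
    · simp
      field_simp
      ring
    · simp
      right
      ring
  have p2 : ∀ w ∈ W, w 2 ≠ 0 → (![0, 0, 1] : Fin 3 → ℚ) ∈ W := by
    intro w hw h0
    rw [hvec w] at hw
    have h1 := hY' _ _ _ hw
    have h2 := hY' _ _ _ h1
    have h3 := W.smul_mem (16 / (45 * w 2)) (W.add_mem (W.sub_mem h2
      (W.smul_mem 5 h1)) (W.smul_mem 4 hw))
    convert h3 using 1
    ext i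
    fin_cases i
    · simp
      right
      ring
    · simp
      right
      ring
    · simp
      field_simp
      ring
  have h01 : (![1, 0, 0] : Fin 3 → ℚ) ∈ W → (![0, 1, 0] : Fin 3 → ℚ) ∈ W := by
    intro h
    exact p1 _ (hZ _ h) (by norm_num)
  have h12 : (![0, 1, 0] : Fin 3 → ℚ) ∈ W → (![0, 0, 1] : Fin 3 → ℚ) ∈ W := by
    intro h
    exact p2 _ (hZ _ h) (by simp)
  have h10 : (![0, 1, 0] : Fin 3 → ℚ) ∈ W → (![1, 0, 0] : Fin 3 → ℚ) ∈ W := by
    intro h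
    exact p0 _ (hX _ h) (by norm_num)
  have h21 : (![0, 0, 1] : Fin 3 → ℚ) ∈ W → (![0, 1, 0] : Fin 3 → ℚ) ∈ W := by
    intro h
    exact p1 _ (hX _ h) (by simp)
  have hall : (![1, 0, 0] : Fin 3 → ℚ) ∈ W ∧ (![0, 1, 0] : Fin 3 → ℚ) ∈ W ∧
      (![0, 0, 1] : Fin 3 → ℚ) ∈ W := by
    obtain ⟨w, hw, hw0⟩ := Submodule.exists_mem_ne_zero_of_ne_bot hbot
    have : w 0 ≠ 0 ∨ w 1 ≠ 0 ∨ w 2 ≠ 0 := by
      by_contra hcon
      push Not at hcon
      apply hw0
      ext i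
      fin_cases i
      · exact hcon.1
      · exact hcon.2.1
      · exact hcon.2.2
    rcases this with h | h | h
    · have h0 := p0 w hw h
      exact ⟨h0, h01 h0, h12 (h01 h0)⟩
    · have h1 := p1 w hw h
      exact ⟨h10 h1, h1, h12 h1⟩
    · have h2 := p2 w hw h
      exact ⟨h10 (h21 h2), h21 h2, h2⟩
  rw [eq_top_iff]
  intro v _
  have h3 := W.add_mem (W.add_mem (W.smul_mem (v 0) hall.1) (W.smul_mem (v 1) hall.2.1))
    (W.smul_mem (v 2) hall.2.2)
  convert h3 using 1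
  ext i
  fin_cases i <;> simp

lemma A_mem : IsComb (φ mX) (φ mY) (φ mA) := by
  refine ⟨-2, 1, -1, 2, ?_⟩
  rw [mA_eq, map_sub, map_add, map_sub, map_smul, map_smul, map_mul, map_one]
  module

lemma B_mem : IsComb (φ mY) (φ mZ) (φ mB) := by
  refine ⟨-2, -1, 1, 2, ?_⟩
  rw [mB_eq, map_sub, map_add, map_sub, map_smul, map_smul, map_mul, map_one]
  module

lemma C_not_mem : ¬ IsComb (φ mZ) (φ mX) (φ mC) := by
  rintro ⟨a, b, c, e, h⟩
  have h' : mC = a • 1 + b • mZ + c • mX + e • (mZ * mX) := by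
    apply φ.injective
    rw [h]
    simp only [map_add, map_smul, map_mul, map_one]
  have e01 := congrFun (congrFun h' 0) 1
  have e12 := congrFun (congrFun h' 1) 2
  have e10 := congrFun (congrFun h' 1) 0
  have e21 := congrFun (congrFun h' 2) 1
  simp [mC, mX, mZ, Matrix.mul_apply, Fin.sum_univ_succ] at e01 e12 e10 e21
  linarith

lemma triple : IsLeonardTriple 2 (φ mA) (φ mB) (φ mC) := ⟨basisA, basisB, basisC⟩

lemma pair : IsLeonardPair 2 (φ mA) (φ mB) := by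
  obtain ⟨b, h1, h2, -⟩ := basisA
  obtain ⟨b', h1', h2', -⟩ := basisB
  exact ⟨⟨b', h2', h1'⟩, ⟨b, h2, h1⟩⟩

/-- The symmetric matrix defining the antiautomorphism `†`. -/
def mS : Matrix (Fin 3) (Fin 3) ℚ :=
  !![2025/64, -405/16, 81/16; -405/16, 171/8, -9/2; 81/16, -9/2, 1]
/-- Its inverse. -/
def mSi : Matrix (Fin 3) (Fin 3) ℚ := !![256/81, 64/9, 16; 64/9, 152/9, 40; 16, 40, 100]

lemma S_mul : mS * mSi = 1 := by decide +kernel
lemma Si_mul : mSi * mS = 1 := by decide +kernel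
lemma S_symm : mS.transpose = mS := by decide +kernel
lemma Si_symm : mSi.transpose = mSi := by decide +kernel
lemma S_A : mSi * mA.transpose * mS = mA := by decide +kernel
lemma S_B : mSi * mB.transpose * mS = mB := by decide +kernel

/-- the antiautomorphism on matrices -/
noncomputable def dagM : Matrix (Fin 3) (Fin 3) ℚ ≃ₗ[ℚ] Matrix (Fin 3) (Fin 3) ℚ where
  toFun M := mSi * M.transpose * mS
  invFun M := mSi * M.transpose * mS
  map_add' M N := by rw [Matrix.transpose_add, Matrix.mul_add, Matrix.add_mul]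
  map_smul' c M := by
    rw [Matrix.transpose_smul, Matrix.mul_smul, Matrix.smul_mul]
    rfl
  left_inv M := by
    show mSi * (mSi * M.transpose * mS).transpose * mS = M
    rw [Matrix.transpose_mul, Matrix.transpose_mul, Matrix.transpose_transpose, S_symm, Si_symm]
    calc mSi * (mS * (M * mSi)) * mS = (mSi * mS) * M * (mSi * mS) := by
          simp only [Matrix.mul_assoc]
      _ = M := by rw [Si_mul, Matrix.one_mul, Matrix.mul_one]
  right_inv M := by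
    show mSi * (mSi * M.transpose * mS).transpose * mS = M
    rw [Matrix.transpose_mul, Matrix.transpose_mul, Matrix.transpose_transpose, S_symm, Si_symm]
    calc mSi * (mS * (M * mSi)) * mS = (mSi * mS) * M * (mSi * mS) := by
          simp only [Matrix.mul_assoc]
      _ = M := by rw [Si_mul, Matrix.one_mul, Matrix.mul_one]

lemma dagM_mul (M N : Matrix (Fin 3) (Fin 3) ℚ) : dagM (M * N) = dagM N * dagM M := by
  show mSi * (M * N).transpose * mS = (mSi * N.transpose * mS) * (mSi * M.transpose * mS)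
  rw [Matrix.transpose_mul]
  calc mSi * (N.transpose * M.transpose) * mS
      = mSi * N.transpose * (1 : Matrix (Fin 3) (Fin 3) ℚ) * M.transpose * mS := by
        rw [Matrix.mul_one]
        simp only [Matrix.mul_assoc]
    _ = _ := by
        rw [← S_mul]
        simp only [Matrix.mul_assoc]

/-- the antiautomorphism on endomorphisms -/
noncomputable def dag : End ℚ (Fin 3 → ℚ) ≃ₗ[ℚ] End ℚ (Fin 3 → ℚ) :=
  (φ.symm.toLinearEquiv.trans dagM).trans φ.toLinearEquiv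

lemma dag_φ (M : Matrix (Fin 3) (Fin 3) ℚ) : dag (φ M) = φ (dagM M) := by
  show φ (dagM (φ.symm (φ M))) = φ (dagM M)
  rw [AlgEquiv.symm_apply_apply]

lemma isDagger_dag : IsDagger (φ mA) (φ mB) dag := by
  refine ⟨fun M N => dag.map_add M N, fun c M => dag.map_smul c M, fun M N => ?_,
    dag.bijective, ?_, ?_⟩
  · obtain ⟨M, rfl⟩ := φ.surjective M
    obtain ⟨N, rfl⟩ := φ.surjective N
    rw [← map_mul, dag_φ, dag_φ, dag_φ, dagM_mul, map_mul]
  · rw [dag_φ]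
    exact congrArg φ S_A
  · rw [dag_φ]
    exact congrArg φ S_B

/-- **Negative answer.** There are a field `K`, a vector space `V` of dimension `d + 1 = 3`, a
scalar `q`, and `A, As, Ae, X, Xinv, Y, Z` satisfying all the hypotheses of the problem, such that
neither `Ae` nor `Ae^†` is a linear combination of `1, Z, X, Z X`. -/
theorem main_aux :
    ∃ (K V : Type) (_ : Field K) (_ : AddCommGroup V) (_ : Module K V) (d : ℕ) (q : K)
      (A As Ae X Xinv Y Z : End K V),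
      Setup d q A As Ae X Xinv Y Z ∧
      (∃ τ : End K V → End K V, IsDagger A As τ) ∧
      ∀ τ : End K V → End K V, IsDagger A As τ → ¬ IsComb Z X Ae ∧ ¬ IsComb Z X (τ Ae) := by
  refine ⟨ℚ, Fin 3 → ℚ, inferInstance, inferInstance, inferInstance, 2, 2, φ mA, φ mB, φ mC,
    φ mX, φ mXi, φ mY, φ mZ, ?_, ⟨dag, isDagger_dag⟩, ?_⟩
  · exact {
      dim := by simp
      q_ne_zero := by norm_num
      q_not_root := fun n hn => by
        have : (1 : ℚ) < 2 ^ n := one_lt_pow₀ (by norm_num) hn.ne'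
        exact this.ne'
      pair := pair
      ratio := fun b θ _ _ _ i h2 hi => by omega
      equitable := equitable
      irreducible := irreducible
      A_mem := A_mem
      As_mem := B_mem
      triple := triple }
  · intro τ hτ
    refine ⟨C_not_mem, ?_⟩
    have : τ (φ mC) = φ mC := by
      rw [mC_eq, map_add, map_smul, map_smul, hτ.map_add, hτ.map_smul, hτ.map_smul, hτ.map_A,
        hτ.map_As]
    rw [this]
    exact C_not_mem

end Pool.Agent.Results.MP_a7ee28_al.DimThreeDisproof
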